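import Pool.Agent.H525.MV.Stm

/-! Mertens' theorem for the zeros of a polynomial in several variables: job MER of helper525
(by helper287). -/

set_option autoImplicit false

namespace Pool.Agent.H287.MV

open Finset NumberField MvPolynomial
open Pool.Agent.H525.MV
open Pool.Agent.H525.NF (mem_PR)
open Pool.Agent.H474R2.PG (PR)

theorem PR_mono {w w' : ℝ} (h : w ≤ w') : PR w ⊆ PR w' := by
  intro p hp
  rw [mem_PR] at hp ⊢
  exact ⟨hp.1, hp.2.trans h⟩

theorem card_pos_of_deg {ι : Type} [Fintype ι] {F : MvPolynomial ι ℤ} (hd : 0 < F.totalDegree) :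
    1 ≤ Fintype.card ι := by
  by_contra hcon
  have h0 : Fintype.card ι = 0 := by omega
  have : IsEmpty ι := Fintype.card_eq_zero_iff.1 h0
  rw [F.eq_C_of_isEmpty, totalDegree_C] at hd
  exact lt_irrefl _ hd

/-- the sum of `p^(-3/2)` -/
theorem sum_bd : ∃ Z : ℝ, 0 ≤ Z ∧ ∀ w : ℝ, ∑ p ∈ PR w, 1 / ((p : ℝ) * Real.sqrt p) ≤ Z := by
  have hs : Summable fun n : ℕ => 1 / (n : ℝ) ^ (3 / 2 : ℝ) :=
    Real.summable_one_div_nat_rpow.2 (by norm_num)
  refine ⟨∑' n : ℕ, 1 / (n : ℝ) ^ (3 / 2 : ℝ), tsum_nonneg fun n => by positivity, fun w => ?_⟩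
  refine le_trans (le_of_eq (Finset.sum_congr rfl fun p hp => ?_))
    (hs.sum_le_tsum (PR w) fun n _ => by positivity)
  rw [mem_PR] at hp
  have hp0 : (0 : ℝ) < p := by exact_mod_cast hp.1.pos
  rw [Real.sqrt_eq_rpow]
  nth_rewrite 1 [← Real.rpow_one (p : ℝ)]
  rw [← Real.rpow_add hp0]
  norm_num

theorem t_MER (h : S_LW) : S_MER := by
  intro ι _ F hF hd
  obtain ⟨L, iF, iN, C0, hC0, hLW⟩ := h ι F hF hd
  obtain ⟨C1, h1⟩ := Pool.Agent.H474R2.PG.homs_lower L
  obtain ⟨C2, hC2, w0, h2⟩ := Pool.Agent.H525.NF.homs_upper L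
  obtain ⟨Z, hZ, hZs⟩ := sum_bd
  have hn := card_pos_of_deg hd
  refine ⟨C0 * Z + (|C1| + (C2 + |Real.log (Real.log w0)|)), by positivity, fun w hw => ?_⟩
  have hll : 0 ≤ Real.log (Real.log w) := by
    apply Real.log_nonneg
    rw [Real.le_log_iff_exp_le (by linarith)]
    linarith [Real.exp_one_lt_d9]
  -- the sum over the homomorphisms
  have hlow := h1 w hw
  have hup : ∑ p ∈ PR w, (Nat.card (𝓞 L →+* ZMod p) : ℝ) / (p : ℝ) ≤
      Real.log (Real.log w) + (C2 + |Real.log (Real.log w0)|) := by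
    rcases le_or_gt w0 w with hc | hc
    · have := h2 w hc
      have := abs_nonneg (Real.log (Real.log w0))
      linarith
    · have h3 := h2 w0 le_rfl
      have h4 : ∑ p ∈ PR w, (Nat.card (𝓞 L →+* ZMod p) : ℝ) / (p : ℝ) ≤
          ∑ p ∈ PR w0, (Nat.card (𝓞 L →+* ZMod p) : ℝ) / (p : ℝ) :=
        Finset.sum_le_sum_of_subset_of_nonneg (PR_mono hc.le) fun p _ _ => by positivity
      have := le_abs_self (Real.log (Real.log w0))
      linarith
  -- the difference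
  have hdiff : |∑ p ∈ PR w, (zc F p : ℝ) / (p : ℝ) ^ Fintype.card ι -
      ∑ p ∈ PR w, (Nat.card (𝓞 L →+* ZMod p) : ℝ) / (p : ℝ)| ≤ C0 * Z := by
    rw [← Finset.sum_sub_distrib]
    refine (Finset.abs_sum_le_sum_abs _ _).trans ?_
    refine le_trans (Finset.sum_le_sum (g := fun p : ℕ => C0 * (1 / ((p : ℝ) * Real.sqrt p)))
      fun p hp => ?_) ?_
    · rw [mem_PR] at hp
      have hp0 : (0 : ℝ) < p := by exact_mod_cast hp.1.pos
      have hs0 : 0 < Real.sqrt p := Real.sqrt_pos.2 hp0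
      have h3 := hLW p hp.1
      obtain ⟨m, hm⟩ : ∃ m, Fintype.card ι = m + 1 := ⟨Fintype.card ι - 1, by omega⟩
      rw [hm, Nat.add_sub_cancel] at h3
      rw [hm]
      have e1 : (zc F p : ℝ) / (p : ℝ) ^ (m + 1) - (Nat.card (𝓞 L →+* ZMod p) : ℝ) / (p : ℝ) =
          ((zc F p : ℝ) - Nat.card (𝓞 L →+* ZMod p) * (p : ℝ) ^ m) / (p : ℝ) ^ (m + 1) := by
        rw [pow_succ]
        field_simp
      rw [e1, abs_div, abs_of_pos (by positivity : (0 : ℝ) < (p : ℝ) ^ (m + 1)),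
        div_le_iff₀ (by positivity)]
      have e2 : C0 * (1 / ((p : ℝ) * Real.sqrt p)) * (p : ℝ) ^ (m + 1) =
          C0 * (p : ℝ) ^ m / Real.sqrt p := by
        rw [pow_succ]
        field_simp
      rw [e2, le_div_iff₀ hs0]
      exact h3
    · rw [← Finset.mul_sum]
      exact mul_le_mul_of_nonneg_left (hZs w) hC0
  have h5 := abs_le.1 hdiff
  have h6 := le_abs_self C1
  have h7 := abs_nonneg C1
  have h8 := abs_nonneg (Real.log (Real.log w0))
  rw [abs_le]
  constructor <;> linarith [h5.1, h5.2]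

end Pool.Agent.H287.MV
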